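import Mathlib
import Pool.Agent.Lib.MP_4fbe7c_an.WN.Main

/-!
The N-species slowest disperser problem in bounded domains of `ℝ^p`: every number of species in
EVERY environment, if the rates of the competitors of the slowest species lie in a window whose
width depends only on the rates.
-/

set_option autoImplicit false

open Set

namespace Pool.Agent.Results.MP_4fbe7c_an.EveryEnvironment

/-- Euclidean space `ℝ^p`. -/
abbrev E (p : ℕ) := EuclideanSpace ℝ (Fin p)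

/-- The trace of a linear map; the Laplacian, if the map is the Hessian. -/
noncomputable def trace {p : ℕ} (H : E p →L[ℝ] E p) : ℝ := ∑ k, H (EuclideanSpace.single k 1) k

/-- `Ω = {q < 0}` is a bounded connected open set of `ℝ^p` with a `C²` boundary `{q = 0}`. -/
structure IsC2Domain {p : ℕ} (Ω : Set (E p)) (q : E p → ℝ) : Prop where
  conn : IsConnected Ω
  bdd : Bornology.IsBounded Ω
  smooth : ContDiff ℝ 2 q
  eq : Ω = {x | q x < 0}
  grad : ∀ x, q x = 0 → gradient q x ≠ 0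

section defs

variable {p : ℕ} (Ω : Set (E p)) (q : E p → ℝ)

/-- `f` is `C²` up to the boundary of `Ω` with gradient `f'` and Hessian `H` and satisfies the
Neumann condition. -/
structure IsC2Neumann (f : E p → ℝ) (f' : E p → E p) (H : E p → E p →L[ℝ] E p) : Prop where
  cont : ContinuousOn f (closure Ω)
  cont' : ContinuousOn f' (closure Ω)
  cont'' : ContinuousOn H (closure Ω)
  deriv : ∀ x ∈ Ω, HasGradientAt f (f' x) x
  deriv' : ∀ x ∈ Ω, HasFDerivAt f' (H x) x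
  neumann : ∀ x ∈ frontier Ω, inner ℝ (f' x) (gradient q x) = 0

/-- Classical solutions on `[0, ∞) × closure Ω` of
`∂_t u_i = d_i Δ u_i + u_i (m(x) - ∑ u_j)` in `Ω` with the Neumann condition and continuous
nonnegative initial data (`v = ∇ u` and `w = D² u` are continuous on `(0, ∞) × closure Ω`). -/
def IsSolution (m : E p → ℝ) {N : ℕ} (d : Fin N → ℝ) (u : Fin N → ℝ → E p → ℝ) : Prop :=
  (∀ i, ContinuousOn (fun a : ℝ × E p => u i a.1 a.2) (Ici 0 ×ˢ closure Ω)) ∧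
  (∀ i, ∀ x ∈ closure Ω, 0 ≤ u i 0 x) ∧
  ∃ (v : Fin N → ℝ → E p → E p) (w : Fin N → ℝ → E p → E p →L[ℝ] E p),
    (∀ i, ContinuousOn (fun a : ℝ × E p => v i a.1 a.2) (Ioi 0 ×ˢ closure Ω)) ∧
    (∀ i, ContinuousOn (fun a : ℝ × E p => w i a.1 a.2) (Ioi 0 ×ˢ closure Ω)) ∧
    (∀ i, ∀ t, 0 < t → IsC2Neumann Ω q (u i t) (v i t) (w i t)) ∧
    ∀ i, ∀ t, 0 < t → ∀ x ∈ Ω, HasDerivAt (fun s => u i s x)
      (d i * trace (w i t x) + u i t x * (m x - ∑ j, u j t x)) t

/-- `θ` is a positive steady state of a single species with rate `d`, with gradient `θ'`: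
`d Δ θ + θ (m - θ) = 0` in `Ω` with the Neumann condition. -/
def IsSteady (m : E p → ℝ) (d : ℝ) (θ : E p → ℝ) (θ' : E p → E p) : Prop :=
  (∀ x ∈ closure Ω, 0 < θ x) ∧ ∃ θ'' : E p → E p →L[ℝ] E p, IsC2Neumann Ω q θ θ' θ'' ∧
    ∀ x ∈ Ω, d * trace (θ'' x) + θ x * (m x - θ x) = 0

/-- At time `t` the solution is uniformly `ε`-close to the state in which species `i₀` has
density `θ` and all other species are absent. -/
def CloseTo {N : ℕ} (i₀ : Fin N) (θ : E p → ℝ) (u : Fin N → ℝ → E p → ℝ) (ε t : ℝ) : Prop :=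
  ∀ x ∈ closure Ω, |u i₀ t x - θ x| < ε ∧ ∀ j, j ≠ i₀ → |u j t x| < ε

/-- Species `i₀` wins, with limit `θ`: the state `(0, …, θ, …, 0)` is Lyapunov stable in the
sup norm, and every solution in which species `i₀` is initially present converges to it
uniformly as `t → ∞`. -/
def Wins (m : E p → ℝ) {N : ℕ} (d : Fin N → ℝ) (i₀ : Fin N) (θ : E p → ℝ) : Prop :=
  (∀ ε > 0, ∃ δ > 0, ∀ u : Fin N → ℝ → E p → ℝ, IsSolution Ω q m d u →
    CloseTo Ω i₀ θ u δ 0 → ∀ t, 0 ≤ t → CloseTo Ω i₀ θ u ε t) ∧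
  (∀ u : Fin N → ℝ → E p → ℝ, IsSolution Ω q m d u → (∃ x ∈ closure Ω, 0 < u i₀ 0 x) →
    ∀ ε > 0, ∃ T : ℝ, ∀ t, T ≤ t → CloseTo Ω i₀ θ u ε t)

end defs

section passage

open Pool.Agent.Lib.MP_4fbe7c_an.ND

variable {p : ℕ} {Ω : Set (E p)} {q : E p → ℝ}

theorem toDom (h : IsC2Domain Ω q) : Dom Ω q := ⟨h.conn, h.bdd, h.smooth, h.eq, h.grad⟩

theorem toC2 {f : E p → ℝ} {f' : E p → E p} {H : E p → E p →L[ℝ] E p}
    (h : IsC2Neumann Ω q f f' H) : C2 Ω f f' H :=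
  ⟨⟨h.cont, h.cont', h.deriv⟩, h.cont'', h.deriv'⟩

theorem toSol {m : E p → ℝ} (hm : ContinuousOn m (closure Ω)) {N : ℕ} {d : Fin N → ℝ}
    {u : Fin N → ℝ → E p → ℝ} (hu : IsSolution Ω q m d u) : ∃ v w, Sol Ω q m d u v w := by
  obtain ⟨hc, hi, v, w, hv, hw, h2, he⟩ := hu
  have hmc : ContinuousOn (fun a : ℝ × E p => m a.2) (Ioi 0 ×ˢ closure Ω) :=
    hm.comp continuous_snd.continuousOn fun a ha => ha.2
  have huc : ∀ i, ContinuousOn (fun a : ℝ × E p => u i a.1 a.2) (Ioi 0 ×ˢ closure Ω) := fun i =>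
    (hc i).mono (prod_mono_left Ioi_subset_Ici_self)
  have htr : ∀ i, ContinuousOn (fun a : ℝ × E p => tr (w i a.1 a.2)) (Ioi 0 ×ˢ closure Ω) :=
    fun i => continuous_tr.comp_continuousOn (hw i)
  have hz : ∀ i, ContinuousOn (fun a : ℝ × E p => d i * tr (w i a.1 a.2) +
      u i a.1 a.2 * (m a.2 - ∑ j, u j a.1 a.2)) (Ioi 0 ×ˢ closure Ω) := fun i =>
    (continuousOn_const.mul (htr i)).add ((huc i).mul (hmc.sub (continuousOn_finsetSum _
      fun j _ => huc j)))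
  refine ⟨v, w, ⟨fun i => ?_, hi⟩⟩
  exact
    { cz := hc i
      cg := hv i
      cH := hw i
      cz' := hz i
      dx := fun t ht => (h2 i t ht).deriv
      dxx := fun t ht => (h2 i t ht).deriv'
      dt := fun t ht x hx => H54.hasDerivAt_closure (huc i) (hz i) (he i) ht hx
      neu := fun t ht => (h2 i t ht).neumann }

theorem toStdy {m : E p → ℝ} (hm : ContinuousOn m (closure Ω)) {d : ℝ} {θ : E p → ℝ}
    {θ' : E p → E p} (hθ : IsSteady Ω q m d θ θ') : ∃ θ'', Stdy Ω q m d θ θ' θ'' := by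
  obtain ⟨hpos, θ'', h2, he⟩ := hθ
  refine ⟨θ'', ⟨hpos, toC2 h2, h2.neumann, ?_⟩⟩
  refine H54.eq_zero_closure ?_ he
  exact (continuousOn_const.mul (continuous_tr.comp_continuousOn h2.cont'')).add
    (h2.cont.mul (hm.sub h2.cont))

/-- Passage between the two forms of the definitions. -/
theorem conclude {m θ : E p → ℝ} (hΩ : Dom Ω q) (hm : ContinuousOn m (closure Ω)) {N : ℕ}
    {d : Fin N → ℝ} (hd : ∀ i, 0 < d i) {i₀ : Fin N} (hG : GasN Ω q m d i₀ θ) :
    Wins Ω q m d i₀ θ := by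
  have key : ∀ (u : Fin N → ℝ → E p → ℝ), IsSolution Ω q m d u → ∀ (ε t : ℝ), 0 ≤ t →
      NearN Ω u i₀ θ ε t → CloseTo Ω i₀ θ u ε t := by
    intro u hu ε t ht h x hx
    obtain ⟨v, w, hs⟩ := toSol hm hu
    refine ⟨(h x hx).1, fun j hj => ?_⟩
    rw [abs_of_nonneg ((Main.pre_st p Ω q m N d u v w hΩ hm hd hs j).1 t ht x hx)]
    exact (h x hx).2 j hj
  constructor
  · intro ε hε
    obtain ⟨δ, hδ, h⟩ := hG ε hε
    refine ⟨δ, hδ, fun u hu hclose t ht => ?_⟩
    obtain ⟨v, w, hs⟩ := toSol hm hu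
    exact key u hu ε t ht ((h u v w hs).1 (fun y hy => ⟨(hclose y hy).1, fun j hj =>
      (le_abs_self _).trans_lt ((hclose y hy).2 j hj)⟩) t ht)
  · intro u hu hpres ε hε
    obtain ⟨δ, hδ, h⟩ := hG ε hε
    obtain ⟨v, w, hs⟩ := toSol hm hu
    obtain ⟨T, hT⟩ := (h u v w hs).2 hpres
    exact ⟨max T 0, fun t ht => key u hu ε t ((le_max_right _ _).trans ht)
      (hT t ((le_max_left _ _).trans ht))⟩

end passage

/-- Let `Ω` be a bounded connected domain of `ℝ^p` with a `C²` boundary, let `m` be continuous and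
not constant on the closure of `Ω` (no other assumption), and let `θ` be the steady state of species
`i₀` alone. If the rates of all other species lie in `[D, D + w]` with `d i₀ < D` and
`10⁶ w² ≤ d i₀ min (d i₀, D - d i₀)`, then species `i₀` wins, for every number of species. -/
theorem result (p : ℕ) (Ω : Set (E p)) (q : E p → ℝ) (hΩ : IsC2Domain Ω q) (m : E p → ℝ)
    (hm : ContinuousOn m (closure Ω)) (hnc : ∃ x ∈ closure Ω, ∃ y ∈ closure Ω, m x ≠ m y)
    (N : ℕ) (d : Fin N → ℝ) (i₀ : Fin N) (D w : ℝ) (hd₀ : 0 < d i₀) (hD : d i₀ < D)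
    (hdj : ∀ j, j ≠ i₀ → D ≤ d j ∧ d j ≤ D + w)
    (hw : 10 ^ 6 * w ^ 2 ≤ d i₀ * min (d i₀) (D - d i₀))
    (θ : E p → ℝ) (θ' : E p → E p) (hθ : IsSteady Ω q m (d i₀) θ θ') :
    Wins Ω q m d i₀ θ := by
  have hD' := toDom hΩ
  have hd : ∀ i, 0 < d i := by
    intro i
    by_cases h : i = i₀
    · rw [h]; exact hd₀
    · exact hd₀.trans (hD.trans_le (hdj i h).1)
  obtain ⟨θ'', hS⟩ := toStdy hm hθ
  exact conclude hD' hm hd (Pool.Agent.Lib.MP_4fbe7c_an.WN.Main.cri_st p Ω q m θ θ' θ'' N d i₀ D w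
    hD' hm hnc hd₀ hD hdj (by norm_num at hw ⊢; exact hw) hS)

end Pool.Agent.Results.MP_4fbe7c_an.EveryEnvironment
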