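import Mathlib
import Pool.Agent.Lib.MP_4fbe7c_an.RS.Main

/-!
The N-species slowest disperser problem in one space dimension, for a positive `m` of class `C^1`:
the slowest disperser wins if the other rates are separated from its rate by a factor, uniformly as
its rate tends to zero.
-/

set_option autoImplicit false

open Set Pool.Agent.Lib.MP_4fbe7c_an.SD Pool.Agent.Lib.MP_4fbe7c_an.FC

namespace Pool.Agent.Results.MP_4fbe7c_an.SeparatedRates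

/-- Classical solutions on `[0, ∞) × [0, L]` of
`∂_t u_i = d_i ∂_xx u_i + u_i (m(x) - ∑ u_j)`, `∂_x u_i = 0` at `x = 0` and `x = L`,
with continuous nonnegative initial data (`v = ∂_x u`, `w = ∂_xx u`, continuous for `t > 0`). -/
def IsSolution (L : ℝ) (m : ℝ → ℝ) {N : ℕ} (d : Fin N → ℝ) (u : Fin N → ℝ → ℝ → ℝ) : Prop :=
  (∀ i, ContinuousOn (fun p : ℝ × ℝ => u i p.1 p.2) (Ici 0 ×ˢ Icc 0 L)) ∧
  (∀ i, ∀ x ∈ Icc 0 L, 0 ≤ u i 0 x) ∧
  ∃ v w : Fin N → ℝ → ℝ → ℝ,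
    (∀ i, ContinuousOn (fun p : ℝ × ℝ => v i p.1 p.2) (Ioi 0 ×ˢ Icc 0 L)) ∧
    (∀ i, ContinuousOn (fun p : ℝ × ℝ => w i p.1 p.2) (Ioi 0 ×ˢ Icc 0 L)) ∧
    (∀ i, ∀ t, 0 < t → v i t 0 = 0 ∧ v i t L = 0) ∧
    ∀ i, ∀ t, 0 < t → ∀ x ∈ Icc 0 L,
      HasDerivWithinAt (u i t) (v i t x) (Icc 0 L) x ∧
      HasDerivWithinAt (v i t) (w i t x) (Icc 0 L) x ∧
      HasDerivAt (fun s => u i s x)
        (d i * w i t x + u i t x * (m x - ∑ j, u j t x)) t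

/-- `θ` is a positive steady state of a single species with rate `d`:
`d θ'' + θ (m - θ) = 0` on `[0, L]`, `θ' = 0` at `0` and `L`. -/
def IsSteady (L : ℝ) (m : ℝ → ℝ) (d : ℝ) (θ : ℝ → ℝ) : Prop :=
  (∀ x ∈ Icc 0 L, 0 < θ x) ∧ ∃ θ' θ'' : ℝ → ℝ, θ' 0 = 0 ∧ θ' L = 0 ∧
    ∀ x ∈ Icc 0 L, HasDerivWithinAt θ (θ' x) (Icc 0 L) x ∧
      HasDerivWithinAt θ' (θ'' x) (Icc 0 L) x ∧ d * θ'' x + θ x * (m x - θ x) = 0

/-- At time `t` the solution is uniformly `ε`-close to the state in which species `i₀` has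
density `θ` and all other species are absent. -/
def CloseTo (L : ℝ) {N : ℕ} (i₀ : Fin N) (θ : ℝ → ℝ) (u : Fin N → ℝ → ℝ → ℝ) (ε t : ℝ) : Prop :=
  ∀ x ∈ Icc 0 L, |u i₀ t x - θ x| < ε ∧ ∀ j, j ≠ i₀ → |u j t x| < ε

/-- Species `i₀` wins, with limit `θ`: the state `(0, …, θ, …, 0)` is Lyapunov stable in the
sup norm, and every solution in which species `i₀` is initially present converges to it
uniformly as `t → ∞`. -/
def Wins (L : ℝ) (m : ℝ → ℝ) {N : ℕ} (d : Fin N → ℝ) (i₀ : Fin N) (θ : ℝ → ℝ) : Prop :=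
  (∀ ε > 0, ∃ δ > 0, ∀ u : Fin N → ℝ → ℝ → ℝ, IsSolution L m d u →
    CloseTo L i₀ θ u δ 0 → ∀ t, 0 ≤ t → CloseTo L i₀ θ u ε t) ∧
  (∀ u : Fin N → ℝ → ℝ → ℝ, IsSolution L m d u → (∃ x ∈ Icc 0 L, 0 < u i₀ 0 x) →
    ∀ ε > 0, ∃ T : ℝ, ∀ t, T ≤ t → CloseTo L i₀ θ u ε t)

theorem toSol {L : ℝ} {m : ℝ → ℝ} {N : ℕ} {d : Fin N → ℝ} {u : Fin N → ℝ → ℝ → ℝ}
    (hu : IsSolution L m d u) : ∃ v w, Sol L m d u v w := by
  obtain ⟨hc, hi, v, w, hv, hw, hb, he⟩ := hu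
  exact ⟨v, w,
    { cu := hc
      cv := hv
      cw := hw
      init := hi
      dx := fun i t ht x hx => (he i t ht x hx).1
      dxx := fun i t ht x hx => (he i t ht x hx).2.1
      b0 := fun i t ht => (hb i t ht).1
      bL := fun i t ht => (hb i t ht).2
      dt := fun i t ht x hx => (he i t ht x hx).2.2 }⟩

theorem toSteady {L : ℝ} {m : ℝ → ℝ} {d : ℝ} {θ : ℝ → ℝ} (hθ : IsSteady L m d θ) :
    ∃ θ' θ'', Steady L m d θ θ' θ'' := by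
  obtain ⟨hpos, θ', θ'', hb0, hbL, h⟩ := hθ
  exact ⟨θ', θ'',
    { pos := hpos
      d1 := fun x hx => (h x hx).1
      d2 := fun x hx => (h x hx).2.1
      b0 := hb0
      bL := hbL
      eq := fun x hx => (h x hx).2.2 }⟩

/-- Passage between the two forms of the definitions. -/
theorem conclude {L : ℝ} {m θ : ℝ → ℝ} {N : ℕ} {d : Fin N → ℝ} {i₀ : Fin N}
    (hG : Gas L m d i₀ θ) : Wins L m d i₀ θ := by
  constructor
  · intro ε hε
    obtain ⟨δ, hδ, h⟩ := hG ε hε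
    refine ⟨δ, hδ, fun u hu hclose t ht x hx => ?_⟩
    obtain ⟨v, w, hs⟩ := toSol hu
    exact (h u v w hs).1 (fun y hy => ⟨(hclose y hy).1, fun j hj =>
      (le_abs_self _).trans_lt ((hclose y hy).2 j hj)⟩) t ht x hx
  · intro u hu hpres ε hε
    obtain ⟨δ, hδ, h⟩ := hG ε hε
    obtain ⟨v, w, hs⟩ := toSol hu
    obtain ⟨T, hT⟩ := (h u v w hs).2 hpres
    exact ⟨T, fun t ht x hx => hT t ht x hx⟩

/-- Separated rates: let `m` be positive, of class `C^1` and not constant on `[0, L]`.  There are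
`κ > 0` and `D > 0`, which depend only on `L` and `m`, such that for every number `N` of species and
all rates `0 < d i₀ < d j` (`j ≠ i₀`) for which the sum of `d i₀ / d j` over the `j ≠ i₀` with
`d j < D` is at most `κ` the species `i₀` wins. -/
theorem result (L : ℝ) (hL : 0 < L) (m m' : ℝ → ℝ)
    (hm : ∀ x ∈ Icc 0 L, HasDerivWithinAt m (m' x) (Icc 0 L) x)
    (hm' : ContinuousOn m' (Icc 0 L)) (hpos : ∀ x ∈ Icc 0 L, 0 < m x)
    (hnc : ∃ x ∈ Icc 0 L, ∃ y ∈ Icc 0 L, m x ≠ m y) :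
    ∃ κ D : ℝ, 0 < κ ∧ 0 < D ∧ ∀ (N : ℕ) (d : Fin N → ℝ) (i₀ : Fin N),
      0 < d i₀ → (∀ j, j ≠ i₀ → d i₀ < d j) →
      (∑ j ∈ Finset.univ.erase i₀, if d j < D then d i₀ / d j else 0) ≤ κ →
      ∀ θ : ℝ → ℝ, IsSteady L m (d i₀) θ → Wins L m d i₀ θ := by
  obtain ⟨κ, D, h1, h2, h⟩ :=
    Pool.Agent.Lib.MP_4fbe7c_an.RS.rmn_theorem L m m' hL hm hm' hnc hpos
  refine ⟨κ, D, h1, h2, fun N d i₀ h3 h4 h5 θ hθ => ?_⟩
  obtain ⟨θ', θ'', hS⟩ := toSteady hθ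
  exact conclude (h N d i₀ θ θ' θ'' h3 h4 h5 hS)

end Pool.Agent.Results.MP_4fbe7c_an.SeparatedRates
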