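import Mathlib
import Pool.Agent.Lib.MP_4fbe7c_an.Nonneg

/-!
# MP_4fbe7c_an: selection of the slowest disperser among `N` species, two-patch habitat
-/

open Filter Topology Set Pool.Agent.Lib.MP_4fbe7c_an

namespace Pool.Agent.Results.MP_4fbe7c_an.TwoPatches

/-- Right-hand side of the competition system in a habitat consisting of two patches of sizes
`c 0, c 1` with growth rates `m 0, m 1`: species `i` disperses at rate `d i` between patch `k`
and the other patch `k.rev`. -/
noncomputable def field {n : ℕ} (c m : Fin 2 → ℝ) (d : Fin (n + 1) → ℝ)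
    (u : Fin (n + 1) → Fin 2 → ℝ) : Fin (n + 1) → Fin 2 → ℝ :=
  fun i k => d i * (u i k.rev - u i k) / c k + u i k * (m k - ∑ j, u j k)

/-- Solutions on `[0, ∞)` with nonnegative initial data. -/
structure IsSolution {n : ℕ} (c m : Fin 2 → ℝ) (d : Fin (n + 1) → ℝ)
    (u : ℝ → Fin (n + 1) → Fin 2 → ℝ) : Prop where
  cont : ContinuousOn u (Ici 0)
  deriv : ∀ t > 0, HasDerivAt u (field c m d (u t)) t
  init : ∀ i k, 0 ≤ u 0 i k

/-- The state in which the first species has densities `θ` and all others are absent. -/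
def onlyFirst (n : ℕ) (θ : Fin 2 → ℝ) : Fin (n + 1) → Fin 2 → ℝ :=
  fun i k => if i = 0 then θ k else 0

/-- `θ` is a positive steady state of the first species alone. -/
def IsSteady (c m : Fin 2 → ℝ) (d : ℝ) (θ : Fin 2 → ℝ) : Prop :=
  ∀ k, 0 < θ k ∧ d * (θ k.rev - θ k) / c k + θ k * (m k - θ k) = 0

theorem two (k j : Fin 2) : j = k ∨ j = k.rev := by revert k j; decide

theorem rev_ne (k : Fin 2) : k.rev ≠ k := by revert k; decide

section

variable {n : ℕ} {c m : Fin 2 → ℝ} {d : Fin (n + 1) → ℝ} {u : ℝ → Fin (n + 1) → Fin 2 → ℝ}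

theorem sol_cont (hu : IsSolution c m d u) (i : Fin (n + 1)) (k : Fin 2) :
    ContinuousOn (fun t => u t i k) (Ici 0) :=
  (continuousOn_pi.mp (continuousOn_pi.mp hu.cont i)) k

theorem sol_tot_cont (hu : IsSolution c m d u) (k : Fin 2) :
    ContinuousOn (fun t => m k - tot (fun j s => u s j k) t) (Ici 0) :=
  continuousOn_const.sub (continuousOn_finsetSum _ fun j _ => sol_cont hu j k)

theorem sol_deriv (hu : IsSolution c m d u) {t : ℝ} (ht : 0 < t) (i : Fin (n + 1)) (k : Fin 2) :
    HasDerivAt (fun t => u t i k) (d i / c k * (u t i k.rev - u t i k) +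
      u t i k * (m k - tot (fun j s => u s j k) t)) t := by
  have h1 := hasDerivAt_pi.mp (hasDerivAt_pi.mp (hu.deriv t ht) i) k
  refine h1.congr_deriv ?_
  simp only [field, tot]
  ring

theorem sol_deriv_rev (hu : IsSolution c m d u) {t : ℝ} (ht : 0 < t) (i : Fin (n + 1))
    (k : Fin 2) :
    HasDerivAt (fun t => u t i k.rev) (d i / c k.rev * (u t i k - u t i k.rev) +
      u t i k.rev * (m k.rev - tot (fun j s => u s j k.rev) t)) t := by
  have := sol_deriv hu ht i k.rev
  rwa [Fin.rev_rev] at this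

theorem sol_nonneg (hc : ∀ k, 0 < c k) (hd : ∀ i, 0 < d i) (hu : IsSolution c m d u) {t : ℝ}
    (ht : 0 ≤ t) (i : Fin (n + 1)) (k : Fin 2) : 0 ≤ u t i k := by
  exact (nonneg_pair (div_pos (hd i) (hc k)) (div_pos (hd i) (hc k.rev)) (sol_cont hu i k)
    (sol_cont hu i k.rev) (sol_tot_cont hu k) (sol_tot_cont hu k.rev)
    (fun t ht => sol_deriv hu ht i k) (fun t ht => sol_deriv_rev hu ht i k)
    (hu.init i k) (hu.init i k.rev) t ht).1

theorem sol_zero (hc : ∀ k, 0 < c k) (hd : ∀ i, 0 < d i) (hu : IsSolution c m d u)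
    {i : Fin (n + 1)} (h0 : ∀ k, u 0 i k = 0) {t : ℝ} (ht : 0 ≤ t) (k : Fin 2) : u t i k = 0 :=
  (zero_pair (div_pos (hd i) (hc k)) (div_pos (hd i) (hc k.rev)) (sol_cont hu i k)
    (sol_cont hu i k.rev) (sol_tot_cont hu k) (sol_tot_cont hu k.rev)
    (fun t ht => sol_deriv hu ht i k) (fun t ht => sol_deriv_rev hu ht i k)
    (h0 k) (h0 k.rev) t ht).1

theorem sol_pos (hc : ∀ k, 0 < c k) (hd : ∀ i, 0 < d i) (hu : IsSolution c m d u)
    {i : Fin (n + 1)} (h0 : ∃ k, 0 < u 0 i k) {t : ℝ} (ht : 0 < t) (k : Fin 2) :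
    0 < u t i k := by
  obtain ⟨k₀, hk₀⟩ := h0
  have h1 := positivity_pair (div_pos (hd i) (hc k₀)) (div_pos (hd i) (hc k₀.rev))
    (sol_cont hu i k₀) (sol_cont hu i k₀.rev) (sol_tot_cont hu k₀) (sol_tot_cont hu k₀.rev)
    (fun t ht => sol_deriv hu ht i k₀) (fun t ht => sol_deriv_rev hu ht i k₀)
    (fun t ht => sol_nonneg hc hd hu ht i k₀) (fun t ht => sol_nonneg hc hd hu ht i k₀.rev)
    hk₀ t ht
  rcases two k₀ k with h | h
  · rw [h]; exact h1.1
  · rw [h]; exact h1.2

/-- Convergence when every species is initially present. -/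
theorem converge_all (hc : ∀ k, 0 < c k) (k : Fin 2) (hk : m k.rev < m k)
    (hmean : 0 ≤ c k * m k + c k.rev * m k.rev) (hd0 : 0 < d 0) (hd : StrictMono d)
    {θ1 θ2 : ℝ} (hθ : Steady (c k) (c k.rev) (m k) (m k.rev) (d 0) θ1 θ2)
    (hu : IsSolution c m d u) (h0 : ∀ i, ∃ k, 0 < u 0 i k) :
    (Tendsto (fun t => u t 0 k) atTop (𝓝 θ1) ∧ Tendsto (fun t => u t 0 k.rev) atTop (𝓝 θ2)) ∧
      ∀ i ≠ 0, Tendsto (fun t => u t i k) atTop (𝓝 0) ∧
        Tendsto (fun t => u t i k.rev) atTop (𝓝 0) := by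
  have hdpos : ∀ i, 0 < d i := fun i => lt_of_lt_of_le hd0 (hd.monotone (Fin.zero_le i))
  have H : Late n (c k) (c k.rev) (m k) (m k.rev) d (fun i t => u t i k)
      (fun i t => u t i k.rev) :=
    { hc1 := hc k
      hc2 := hc k.rev
      hm := hk
      hmean := hmean
      hd0 := hd0
      hd := hd
      pa := by
        filter_upwards [eventually_gt_atTop 0] with t ht i using sol_pos hc hdpos hu (h0 i) ht k
      pb := by
        filter_upwards [eventually_gt_atTop 0] with t ht i using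
          sol_pos hc hdpos hu (h0 i) ht k.rev
      da := by
        filter_upwards [eventually_gt_atTop 0] with t ht i using sol_deriv hu ht i k
      db := by
        filter_upwards [eventually_gt_atTop 0] with t ht i using sol_deriv_rev hu ht i k }
  exact ⟨H.conv hθ, fun i hi => H.extinct i hi⟩

/-- Convergence when the first species is initially present. -/
theorem converge (hc : ∀ k, 0 < c k) (k : Fin 2) (hk : m k.rev < m k)
    (hmean : 0 ≤ c k * m k + c k.rev * m k.rev) (hd0 : 0 < d 0) (hd : StrictMono d)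
    {θ1 θ2 : ℝ} (hθ : Steady (c k) (c k.rev) (m k) (m k.rev) (d 0) θ1 θ2)
    (hu : IsSolution c m d u) (h0 : ∃ k, 0 < u 0 0 k) :
    (Tendsto (fun t => u t 0 k) atTop (𝓝 θ1) ∧ Tendsto (fun t => u t 0 k.rev) atTop (𝓝 θ2)) ∧
      ∀ i ≠ 0, Tendsto (fun t => u t i k) atTop (𝓝 0) ∧
        Tendsto (fun t => u t i k.rev) atTop (𝓝 0) := by
  classical
  have hdpos : ∀ i, 0 < d i := fun i => lt_of_lt_of_le hd0 (hd.monotone (Fin.zero_le i))
  -- the species that are present
  set P : Finset (Fin (n + 1)) := Finset.univ.filter fun i => ∃ k, 0 < u 0 i k with hP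
  have hP0 : (0 : Fin (n + 1)) ∈ P := by rw [hP]; simpa using h0
  have habs : ∀ i ∉ P, ∀ t ≥ 0, ∀ k, u t i k = 0 := by
    intro i hi t ht k
    refine sol_zero hc hdpos hu (fun k => ?_) ht k
    have h1 : ¬ ∃ k, 0 < u 0 i k := by
      intro h; exact hi (by rw [hP]; simpa using h)
    push Not at h1
    exact le_antisymm (h1 k) (hu.init i k)
  obtain ⟨p, hp⟩ : ∃ p, P.card = p + 1 :=
    ⟨P.card - 1, by have := Finset.card_pos.mpr ⟨0, hP0⟩; omega⟩
  set e : Fin (p + 1) ↪o Fin (n + 1) := P.orderEmbOfFin hp with he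
  have hrange : ∀ i, i ∈ P ↔ ∃ j, e j = i := by
    intro i
    have := Finset.range_orderEmbOfFin P hp
    constructor
    · intro h
      have h2 : i ∈ Set.range e := by rw [this]; exact h
      exact h2
    · rintro ⟨j, rfl⟩
      exact Finset.orderEmbOfFin_mem P hp j
  have he0 : e 0 = 0 := by
    obtain ⟨j, hj⟩ := (hrange 0).mp hP0
    have h1 : e 0 ≤ e j := e.monotone (Fin.zero_le j)
    rw [hj] at h1
    exact le_antisymm h1 (Fin.zero_le _)
  have htot : ∀ t ≥ 0, ∀ k, ∑ j, u t (e j) k = ∑ i, u t i k := by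
    intro t ht k
    have h1 : ∑ j, u t (e j) k = ∑ i ∈ P, u t i k := by
      rw [← Finset.map_orderEmbOfFin_univ P hp, Finset.sum_map]
      rfl
    rw [h1]
    exact Finset.sum_subset (Finset.subset_univ _) fun i _ hi => habs i hi t ht k
  set v : ℝ → Fin (p + 1) → Fin 2 → ℝ := fun t j k => u t (e j) k with hv
  have hsol : IsSolution c m (fun j => d (e j)) v :=
    { cont := continuousOn_pi.mpr fun j => continuousOn_pi.mpr fun k => sol_cont hu (e j) k
      deriv := by
        intro t ht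
        refine hasDerivAt_pi.mpr fun j => hasDerivAt_pi.mpr fun k => ?_
        have h1 := hasDerivAt_pi.mp (hasDerivAt_pi.mp (hu.deriv t ht) (e j)) k
        refine h1.congr_deriv ?_
        simp only [field, hv]
        rw [htot t ht.le k]
      init := fun j k => hu.init (e j) k }
  have hmono : StrictMono fun j => d (e j) := hd.comp e.strictMono
  have hmain := converge_all hc k hk hmean (d := fun j => d (e j)) (by rw [he0]; exact hd0)
    hmono (by rw [he0]; exact hθ) hsol (fun j => by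
      have h1 := (hrange (e j)).mpr ⟨j, rfl⟩
      rw [hP] at h1
      simpa using h1)
  obtain ⟨⟨c1, c2⟩, c3⟩ := hmain
  simp only [hv] at c1 c2 c3
  rw [he0] at c1 c2
  refine ⟨⟨c1, c2⟩, fun i hi => ?_⟩
  by_cases hiP : i ∈ P
  · obtain ⟨j, rfl⟩ := (hrange i).mp hiP
    exact c3 j (fun hj => hi (by rw [hj, he0]))
  · have hz : ∀ k, (fun t => u t i k) =ᶠ[atTop] fun _ => (0 : ℝ) := by
      intro k
      filter_upwards [eventually_ge_atTop 0] with t ht using habs i hiP t ht k
    exact ⟨tendsto_const_nhds.congr' (hz k).symm, tendsto_const_nhds.congr' (hz k.rev).symm⟩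

end

/-- **Selection of the slowest disperser in a two-patch habitat.** Any number of species which
differ only in their dispersal rates `0 < d 0 < d 1 < ⋯ < d n` compete in two patches of
arbitrary sizes with different growth rates `m 0 ≠ m 1` of nonnegative mean.  The slowest species
has a unique positive steady state `θ`, the state `(θ, 0, …, 0)` is Lyapunov stable, and it
attracts every solution in which the slowest species is initially present. -/
theorem result {n : ℕ} (c m : Fin 2 → ℝ) (hc : ∀ k, 0 < c k) (hm : m 0 ≠ m 1)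
    (hmean : 0 ≤ ∑ k, c k * m k) (d : Fin (n + 1) → ℝ) (hd0 : 0 < d 0) (hd : StrictMono d) :
    ∃ θ : Fin 2 → ℝ, IsSteady c m (d 0) θ ∧ (∀ φ, IsSteady c m (d 0) φ → φ = θ) ∧
      (∀ ε > 0, ∃ δ > 0, ∀ u, IsSolution c m d u → dist (u 0) (onlyFirst n θ) < δ →
        ∀ t ≥ 0, dist (u t) (onlyFirst n θ) < ε) ∧
      ∀ u, IsSolution c m d u → (∃ k, 0 < u 0 0 k) →
        Tendsto u atTop (𝓝 (onlyFirst n θ)) := by
  obtain ⟨k, hk⟩ : ∃ k : Fin 2, m k.rev < m k := by
    rcases lt_or_gt_of_ne hm with h | h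
    · exact ⟨1, h⟩
    · exact ⟨0, h⟩
  have hsum : ∀ (f : Fin 2 → ℝ), ∑ j, f j = f k + f k.rev := by
    intro f
    rw [Fin.sum_univ_two]
    rcases two 0 k with h | h
    · rw [h]; rfl
    · rw [h]; exact add_comm _ _
  rw [hsum] at hmean
  have hdpos : ∀ i, 0 < d i := fun i => lt_of_lt_of_le hd0 (hd.monotone (Fin.zero_le i))
  obtain ⟨θ1, θ2, hθ⟩ := steady_exists (hc k) (hc k.rev) hk hmean hd0
  set θ : Fin 2 → ℝ := fun j => if j = k then θ1 else θ2 with hθdef
  have hθk : θ k = θ1 := by simp [hθdef]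
  have hθr : θ k.rev = θ2 := by simp [hθdef, rev_ne k]
  have hofsteady : ∀ φ, IsSteady c m (d 0) φ →
      Steady (c k) (c k.rev) (m k) (m k.rev) (d 0) (φ k) (φ k.rev) := by
    intro φ hφ
    have h1 := hφ k
    have h2 := hφ k.rev
    rw [Fin.rev_rev] at h2
    refine ⟨h1.1, h2.1, ?_, ?_⟩
    · rw [← h1.2]; ring
    · rw [← h2.2]; ring
  refine ⟨θ, ?_, ?_, ?_, ?_⟩
  · intro j
    rcases two k j with h | h
    · rw [h, hθk, hθr]
      refine ⟨hθ.p1, ?_⟩
      rw [← hθ.e1]; ring
    · rw [h, Fin.rev_rev, hθk, hθr]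
      refine ⟨hθ.p2, ?_⟩
      rw [← hθ.e2]; ring
  · intro φ hφ
    obtain ⟨h1, h2⟩ := steady_unique (hc k) (hc k.rev) hd0 hθ (hofsteady φ hφ)
    funext j
    rcases two k j with h | h
    · rw [h, hθk, h1]
    · rw [h, hθr, h2]
  · intro ε hε
    obtain ⟨δ, hδ, hstab⟩ := stable (hc k) (hc k.rev) hk hd0 hd hθ hε
    refine ⟨δ, hδ, ?_⟩
    intro u hu hdist t ht
    have hcoord : ∀ i j, |u 0 i j - onlyFirst n θ i j| < δ := by
      intro i j
      rw [← Real.dist_eq]
      exact ((dist_le_pi_dist (u 0 i) (onlyFirst n θ i) j).trans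
        (dist_le_pi_dist (u 0) (onlyFirst n θ) i)).trans_lt hdist
    have h00 : ∀ j, |u 0 0 j - θ j| < δ := fun j => by
      have := hcoord 0 j
      simpa [onlyFirst] using this
    have hs0 : ∀ (i : Fin n) j, u 0 i.succ j < δ := fun i j => by
      have := hcoord i.succ j
      rw [onlyFirst, if_neg (Fin.succ_ne_zero i), sub_zero] at this
      exact (le_abs_self _).trans_lt this
    have hmain := hstab (fun i t => u t i k) (fun i t => u t i k.rev)
      (fun i => sol_cont hu i k) (fun i => sol_cont hu i k.rev)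
      (fun t ht i => sol_deriv hu ht i k) (fun t ht i => sol_deriv_rev hu ht i k)
      (fun t ht i => sol_nonneg hc hdpos hu ht i k)
      (fun t ht i => sol_nonneg hc hdpos hu ht i k.rev)
      (by rw [← hθk]; exact h00 k) (by rw [← hθr]; exact h00 k.rev)
      (fun i => hs0 i k) (fun i => hs0 i k.rev) t ht
    obtain ⟨⟨r1, r2⟩, r3, r4⟩ := hmain
    rw [dist_pi_lt_iff hε]
    intro i
    rw [dist_pi_lt_iff hε]
    intro j
    rw [Real.dist_eq]
    rcases Fin.eq_zero_or_eq_succ i with hi | ⟨i', hi⟩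
    · rw [hi, onlyFirst, if_pos rfl]
      rcases two k j with h | h
      · rw [h, hθk]; exact r1
      · rw [h, hθr]; exact r2
    · rw [hi, onlyFirst, if_neg (Fin.succ_ne_zero i'), sub_zero,
        abs_of_nonneg (sol_nonneg hc hdpos hu ht _ _)]
      rcases two k j with h | h
      · rw [h]; exact r3 i'
      · rw [h]; exact r4 i'
  · intro u hu h0
    obtain ⟨⟨c1, c2⟩, c3⟩ := converge hc k hk hmean hd0 hd hθ hu h0
    refine tendsto_pi_nhds.mpr fun i => tendsto_pi_nhds.mpr fun j => ?_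
    by_cases hi : i = 0
    · rw [hi, onlyFirst, if_pos rfl]
      rcases two k j with h | h
      · rw [h, hθk]; exact c1
      · rw [h, hθr]; exact c2
    · rw [onlyFirst, if_neg hi]
      rcases two k j with h | h
      · rw [h]; exact (c3 i hi).1
      · rw [h]; exact (c3 i hi).2

end Pool.Agent.Results.MP_4fbe7c_an.TwoPatches
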